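import Pool.Agent.MP_3ee8cb_gt.D3.Spec
import Pool.Agent.MP_3ee8cb_gt.D3WI.Base

/-! The front at a large time has constant width. -/

namespace Pool.Agent.MP_3ee8cb_gt.D3WI

open D3 Set
open scoped RealInnerProductSpace

variable {m : MF} {lg : V × V → V} {σ : V → V × V} {T : ℝ}

theorem zz_neg (hj : m.Jac) (hf : m.Front σ) {a : V} (ha : a ≠ 0) (t : ℝ) :
    zz m σ t (-a) = (m.Z (-t) (σ a)).1 := by
  rw [zz, Z_neg hj hf ha]

theorem vel_norm (hj : m.Jac) (hf : m.Front σ) {a : V} (ha : ‖a‖ = 1) (t : ℝ) :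
    ‖(m.Z t (σ a)).2‖ = 1 := by
  rw [hj.norm, hf.norm a (ne_of_norm ha), ha]

theorem dist_anti (ho : m.OK) (hj : m.Jac) (hl : m.Had lg) (hf : m.Front σ) (hT : 0 < T) {a : V}
    (ha : ‖a‖ = 1) : ‖lg (zz m σ T a, zz m σ T (-a))‖ = 2 * T := by
  rw [zz_neg hj hf (ne_of_norm ha), zz, dist_geo ho hj hl, hf.norm a (ne_of_norm ha), ha,
    abs_of_nonpos (by linarith)]
  ring

/-- At a farthest point of the front the connecting geodesic is normal to it. -/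
theorem crit (ho : m.OK) (hj : m.Jac) (hl : m.Had lg) (hf : m.Front σ) (hg : m.Good σ T)
    (hT : 0 < T) {a p : V} (ha : ‖a‖ = 1)
    (hm : ∀ b, ‖b‖ = 1 → ‖lg (zz m σ T b, p)‖ ≤ ‖lg (zz m σ T a, p)‖) :
    ∃ l : ℝ, lg (zz m σ T a, p) = l • (m.Z T (σ a)).2 := by
  refine ⟨_, normal ho hj hf hg hT le_rfl ha fun e he => ?_⟩
  have hn : ∀ s : ℝ, ‖a + s • e‖ ^ 2 = 1 + s ^ 2 * ‖e‖ ^ 2 := fun s => by
    rw [norm_add_sq_real, ha, inner_smul_right, he, norm_smul, Real.norm_eq_abs, mul_pow, sq_abs]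
    ring
  have h0 : ∀ s : ℝ, a + s • e ≠ 0 := fun s h => by
    have := hn s
    rw [h, norm_zero] at this
    nlinarith [sq_nonneg s, sq_nonneg ‖e‖, mul_nonneg (sq_nonneg s) (sq_nonneg ‖e‖)]
  have hq : HasDerivAt (fun s : ℝ => 1 + s ^ 2 * ‖e‖ ^ 2) 0 0 := by
    simpa using (((hasDerivAt_id (0 : ℝ)).pow 2).mul_const (‖e‖ ^ 2)).const_add 1
  have hs : HasDerivAt (fun s : ℝ => (Real.sqrt (1 + s ^ 2 * ‖e‖ ^ 2))⁻¹) 0 0 := by
    exact ((hq.sqrt (by norm_num)).inv (by norm_num)).congr_deriv (by simp)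
  have hc : HasDerivAt (fun s : ℝ => (Real.sqrt (1 + s ^ 2 * ‖e‖ ^ 2))⁻¹ • (a + s • e)) e 0 := by
    exact (hs.smul (((hasDerivAt_id (0 : ℝ)).smul_const e).const_add a)).congr_deriv (by simp)
  have hu : ∀ s : ℝ, ‖(Real.sqrt (1 + s ^ 2 * ‖e‖ ^ 2))⁻¹ • (a + s • e)‖ = 1 := fun s => by
    rw [← hn, Real.sqrt_sq (norm_nonneg _), norm_smul, norm_inv, norm_norm,
      inv_mul_cancel₀ (norm_ne_zero_iff.2 (h0 s))]
  have hz : (Real.sqrt (1 + (0 : ℝ) ^ 2 * ‖e‖ ^ 2))⁻¹ • (a + (0 : ℝ) • e) = a := by simp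
  have h1 := front_fderiv ho hf (ne_of_norm ha) T
  rw [← hz] at h1
  have h2 := (h1.comp_hasDerivAt (0 : ℝ) hc).prodMk (hasDerivAt_const (0 : ℝ) p)
  have h3 : DifferentiableAt ℝ (fun q => ‖lg q‖ ^ 2 / 2) (zz m σ T a, p) :=
    ((hl.c1.norm_sq ℝ).div_const 2).differentiable one_ne_zero _
  have h4 := h3.hasFDerivAt
  rw [← hz] at h4
  have h5 := h4.comp_hasDerivAt (0 : ℝ) h2
  have h6 := IsLocalMax.hasDerivAt_eq_zero (Filter.Eventually.of_forall fun s => by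
    have h7 := pow_le_pow_left₀ (norm_nonneg _) (hm _ (hu s)) 2
    simp only [Function.comp_apply, hz]
    exact div_le_div_of_nonneg_right h7 (by norm_num)) h5
  rw [hz, hl.grad] at h6
  simp only [map_zero, inner_zero_right, sub_zero, neg_eq_zero,
    ContinuousLinearMap.comp_apply] at h6
  rwa [zz, ho.SR] at h6

/-- A diameter of the front joins antipodal points. -/
theorem anti (ho : m.OK) (hj : m.Jac) (hl : m.Had lg) (hf : m.Front σ) (hg : m.Good σ T)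
    (hT : 0 < T) {a a' : V} (ha : ‖a‖ = 1) (ha' : ‖a'‖ = 1)
    (hm : ∀ b b', ‖b‖ = 1 → ‖b'‖ = 1 →
      ‖lg (zz m σ T b, zz m σ T b')‖ ≤ ‖lg (zz m σ T a, zz m σ T a')‖) : a' = -a := by
  obtain ⟨l, h1⟩ := crit ho hj hl hf hg hT ha fun b hb => hm b a' hb ha'
  obtain ⟨l', h2⟩ := crit ho hj hl hf hg hT (p := zz m σ T a) ha' fun b hb => by
    rw [lg_symm hj hl (zz m σ T a) (zz m σ T a')]
    exact hm b a hb ha
  have hna : ‖-a‖ = 1 := by rw [norm_neg, ha]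
  have h3 := hm a (-a) ha hna
  rw [dist_anti ho hj hl hf hT ha] at h3
  have h4 := hl.ex (zz m σ T a) (zz m σ T a')
  have h5 := hl.rev (zz m σ T a) (zz m σ T a')
  rw [h1, zz.eq_1 m σ T a, one_smul' hj, ← ho.add] at h4 h5
  have h6 := lg_symm hj hl (zz m σ T a) (zz m σ T a')
  rw [h1, h2, norm_smul, norm_smul, vel_norm hj hf ha, vel_norm hj hf ha', Real.norm_eq_abs,
    Real.norm_eq_abs, mul_one, mul_one] at h6
  have h7 : l ≠ 0 := by
    rintro rfl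
    rw [h1, zero_smul, norm_zero] at h3
    linarith
  have h8 : l' • (m.Z T (σ a')).2 = -(l • (m.Z (l + T) (σ a)).2) := h2.symm.trans h5
  rcases abs_eq_abs.1 h6 with rfl | rfl
  · rw [← smul_neg] at h8
    have h9 := smul_right_injective V h7 h8
    have h10 : m.Z T (σ a') = m.Z (-(l' + T)) (σ (-a)) := by
      rw [Z_neg hj hf (ne_of_norm ha), neg_neg]
      exact Prod.ext h4.symm h9
    refine hf.sep (-a) a' (-T + -(l' + T)) hna ha' ?_
    rw [ho.add, ← h10, ← ho.add, neg_add_cancel, ho.zero]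
  · rw [neg_smul, neg_inj] at h8
    have h9 := smul_right_injective V h7 h8
    have h10 : m.Z T (σ a') = m.Z (l + T) (σ a) := Prod.ext h4.symm h9
    have h11 : a' = a := by
      refine hf.sep a a' (-T + (l + T)) ha ha' ?_
      rw [ho.add, ← h10, ← ho.add, neg_add_cancel, ho.zero]
    rw [h11, lg_self ho hj hl, norm_zero] at h3
    linarith

theorem zz_cont (ho : m.OK) (hf : m.Front σ) (t : ℝ) :
    ContinuousOn (zz m σ t) (Metric.sphere (0 : V) 1) := fun _ ha =>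
  (front_fderiv ho hf (ne_of_norm (mem_sphere_zero_iff_norm.1 ha)) t).continuousAt.continuousWithinAt

theorem diam (ho : m.OK) (hj : m.Jac) (hl : m.Had lg) (hf : m.Front σ) (hg : m.Good σ T)
    (hT : 0 < T) (a a' : V) (ha : ‖a‖ = 1) (ha' : ‖a'‖ = 1) :
    ‖lg (zz m σ T a, zz m σ T a')‖ ≤ 2 * T := by
  have hK : IsCompact (Metric.sphere (0 : V) 1 ×ˢ Metric.sphere (0 : V) 1) :=
    (isCompact_sphere _ _).prod (isCompact_sphere _ _)
  have hc : ContinuousOn (fun q : V × V => ‖lg (zz m σ T q.1, zz m σ T q.2)‖)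
      (Metric.sphere (0 : V) 1 ×ˢ Metric.sphere (0 : V) 1) :=
    (hl.c1.continuous.comp_continuousOn
      (((zz_cont ho hf T).comp continuousOn_fst fun _ h => h.1).prodMk
        ((zz_cont ho hf T).comp continuousOn_snd fun _ h => h.2))).norm
  obtain ⟨q, hq, hm⟩ := hK.exists_isMaxOn ⟨(a, a'), mem_sphere_zero_iff_norm.2 ha,
    mem_sphere_zero_iff_norm.2 ha'⟩ hc
  have h1 := mem_sphere_zero_iff_norm.1 hq.1
  have h2 : ∀ b b', ‖b‖ = 1 → ‖b'‖ = 1 →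
      ‖lg (zz m σ T b, zz m σ T b')‖ ≤ ‖lg (zz m σ T q.1, zz m σ T q.2)‖ := fun b b' hb hb' =>
    hm (a := (b, b')) ⟨mem_sphere_zero_iff_norm.2 hb, mem_sphere_zero_iff_norm.2 hb'⟩
  have h3 := anti ho hj hl hf hg hT h1 (mem_sphere_zero_iff_norm.1 hq.2) h2
  have h4 := h2 a a' ha ha'
  rwa [h3, dist_anti ho hj hl hf hT h1] at h4

/-- The feet of the front lie well inside the balls round the points of the front at time `T`. -/
theorem foot_sq (hj : m.Jac) (hl : m.Had lg) (hf : m.Front σ)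
    (hd : ∀ a a', ‖a‖ = 1 → ‖a'‖ = 1 → ‖lg (zz m σ T a, zz m σ T a')‖ ≤ 2 * T) {a a₀ : V}
    (ha : ‖a‖ = 1) (ha₀ : ‖a₀‖ = 1) : ‖lg ((σ a₀).1, zz m σ T a)‖ ^ 2 ≤ 3 * T ^ 2 := by
  have h1 := mid hj hl (σ a₀) (zz m σ T a) T
  have h2 := pow_le_pow_left₀ (norm_nonneg _) (hd a a₀ ha ha₀) 2
  have h3 := pow_le_pow_left₀ (norm_nonneg _) (hd a (-a₀) ha (by rw [norm_neg, ha₀])) 2
  rw [zz_neg hj hf (ne_of_norm ha₀)] at h3
  rw [hf.norm a₀ (ne_of_norm ha₀), ha₀] at h1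
  rw [zz.eq_1 m σ T a₀] at h2
  nlinarith

theorem foot_lt (hj : m.Jac) (hl : m.Had lg) (hf : m.Front σ) (hT : 0 < T)
    (hd : ∀ a a', ‖a‖ = 1 → ‖a'‖ = 1 → ‖lg (zz m σ T a, zz m σ T a')‖ ≤ 2 * T) {a a₀ : V}
    (ha : ‖a‖ = 1) (ha₀ : ‖a₀‖ = 1) : ‖lg ((σ a₀).1, zz m σ T a)‖ < 2 * T := by
  have h := foot_sq hj hl hf hd ha ha₀
  refine lt_of_pow_lt_pow_left₀ 2 (by linarith) ?_
  nlinarith

theorem no_far (ho : m.OK) (hj : m.Jac) (hl : m.Had lg) (hf : m.Front σ) (hT : 0 < T)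
    (hd : ∀ a a', ‖a‖ = 1 → ‖a'‖ = 1 → ‖lg (zz m σ T a, zz m σ T a')‖ ≤ 2 * T) {a a' a₀ : V}
    {r : ℝ} (ha : ‖a‖ = 1) (ha' : ‖a'‖ = 1) (ha₀ : ‖a₀‖ = 1)
    (h : lg ((σ a₀).1, zz m σ T a) = r • lg ((σ a₀).1, zz m σ T a')) : r ≤ 1 := by
  by_contra hr
  rw [not_le] at hr
  have hn : ‖-a'‖ = 1 := by rw [norm_neg, ha']
  have h1 := conv ho hj hl ((σ a₀).1, lg ((σ a₀).1, zz m σ T a')) (zz m σ T (-a'))
    zero_le_one hr.le
  have h2 : (m.Z r ((σ a₀).1, lg ((σ a₀).1, zz m σ T a'))).1 = zz m σ T a := by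
    have h3 := hl.ex (σ a₀).1 (zz m σ T a)
    rw [h] at h3
    exact (congrArg Prod.fst
      (one_smul' hj r ((σ a₀).1, lg ((σ a₀).1, zz m σ T a')))).symm.trans h3
  rw [hl.ex, h2, ho.zero, dist_anti ho hj hl hf hT ha', lg_symm hj hl] at h1
  have h4 := foot_lt hj hl hf hT hd hn ha₀
  have h5 := hd (-a') a hn ha
  nlinarith

theorem swid : SWID := by
  intro m lg σ T ho hj _ hl hf hg hT
  have hd := diam ho hj hl hf hg hT
  have he : ∀ a a', ‖a‖ = 1 → ‖a'‖ = 1 → ‖lg (zz m σ T a, zz m σ T a')‖ = 2 * T → a' = -a :=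
    fun a a' ha ha' h => anti ho hj hl hf hg hT ha ha' fun b b' hb hb' => h ▸ hd b b' hb hb'
  refine ⟨hd, he, fun a a₀ ha ha₀ s hs h => ?_, fun a a' a₀ r ha ha' ha₀ hr h => ?_⟩
  · have hn : ‖-a‖ = 1 := by rw [norm_neg, ha]
    have h1 := conv ho hj hl ((σ a).1, lg ((σ a).1, (σ a₀).1)) (zz m σ T (-a)) hs.1 hs.2
    rw [h, hl.ex, ho.zero, dist_anti ho hj hl hf hT ha, lg_symm hj hl (σ a).1,
      lg_symm hj hl (σ a₀).1] at h1
    have h2 := foot_lt hj hl hf hT hd hn ha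
    have h3 := foot_lt hj hl hf hT hd hn ha₀
    rcases hs.1.eq_or_lt with rfl | h4
    · linarith
    · nlinarith [mul_le_mul_of_nonneg_left h2.le (sub_nonneg.2 hs.2),
        mul_lt_mul_of_pos_left h3 h4]
  · have h1 := no_far ho hj hl hf hT hd ha ha' ha₀ h
    have h2 := no_far ho hj hl hf hT hd (r := r⁻¹) ha' ha ha₀ (by
      rw [h, smul_smul, inv_mul_cancel₀ hr.ne', one_smul])
    have h3 : r = 1 := le_antisymm h1 ((inv_le_one₀ hr).1 h2)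
    rw [h3, one_smul] at h
    have h4 : zz m σ T a = zz m σ T a' := by
      rw [← hl.ex (σ a₀).1 (zz m σ T a), h, hl.ex]
    have h5 := dist_anti ho hj hl hf hT ha
    rw [h4] at h5
    exact neg_injective (he a' (-a) ha' (by rw [norm_neg, ha]) h5)

end Pool.Agent.MP_3ee8cb_gt.D3WI
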